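import Pool.Agent.Q218.HB.Stm4

set_option autoImplicit false
set_option linter.all false

/-!
# Project HB, job LIP: dependence on the energy
-/

namespace Pool.Agent.Q149.HB

open Pool.Agent.Q218.HB

variable {Λ : Type} [Fintype Λ] [DecidableEq Λ]

/-- the square of the Hilbert-Schmidt norm -/
noncomputable def hs (A : Matrix Λ Λ ℂ) : ℝ := ∑ x, ∑ y, ‖A x y‖ ^ 2

theorem hs_nonneg (A : Matrix Λ Λ ℂ) : 0 ≤ hs A :=
  Finset.sum_nonneg fun _ _ => Finset.sum_nonneg fun _ _ => sq_nonneg _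

theorem cs (A B : Matrix Λ Λ ℂ) : (∑ x, ∑ y, ‖A x y‖ * ‖B x y‖) ^ 2 ≤ hs A * hs B := by
  have h := Finset.sum_mul_sq_le_sq_mul_sq (Finset.univ : Finset (Λ × Λ))
    (fun p => ‖A p.1 p.2‖) (fun p => ‖B p.1 p.2‖)
  rw [Fintype.sum_prod_type, Fintype.sum_prod_type, Fintype.sum_prod_type] at h
  exact h

theorem hs_sub (A B : Matrix Λ Λ ℂ) : hs (A - B) ≤ 2 * hs A + 2 * hs B := by
  unfold hs
  rw [Finset.mul_sum, Finset.mul_sum, ← Finset.sum_add_distrib]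
  refine Finset.sum_le_sum fun x _ => ?_
  rw [Finset.mul_sum, Finset.mul_sum, ← Finset.sum_add_distrib]
  refine Finset.sum_le_sum fun y _ => ?_
  rw [Matrix.sub_apply]
  have h := norm_sub_le (A x y) (B x y)
  have h0 := norm_nonneg (A x y - B x y)
  have h1 := norm_nonneg (A x y)
  have h2 := norm_nonneg (B x y)
  nlinarith [sq_nonneg (‖A x y‖ - ‖B x y‖)]

theorem hs_mul (hO : S_OPB) {h : Λ → Λ → ℝ} (hh : ∀ x y, h x y = h y x) (V : Λ → ℝ) {z : ℂ}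
    (hz : 0 < z.im) (A : Matrix Λ Λ ℂ) : hs (G h V z * A) ≤ hs A / z.im ^ 2 := by
  have e1 : hs (G h V z * A) = ∑ y, ∑ x, ‖∑ w, G h V z x w * A w y‖ ^ 2 := Finset.sum_comm
  have e2 : hs A / z.im ^ 2 = ∑ y, (∑ w, ‖A w y‖ ^ 2) / z.im ^ 2 := by
    rw [← Finset.sum_div, hs, Finset.sum_comm]
  rw [e1, e2]
  exact Finset.sum_le_sum fun y _ => hO Λ h V z hh hz fun w => A w y

theorem hs_one : hs (1 : Matrix Λ Λ ℂ) = Fintype.card Λ := by
  unfold hs
  have h1 : ∀ x : Λ, ∑ y, ‖(1 : Matrix Λ Λ ℂ) x y‖ ^ 2 = 1 := by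
    intro x
    rw [Finset.sum_eq_single x]
    · simp
    · intro y _ hy
      rw [Matrix.one_apply_ne (Ne.symm hy)]
      simp
    · intro hx
      exact absurd (Finset.mem_univ x) hx
  rw [Finset.sum_congr rfl fun x _ => h1 x]
  simp

theorem hs_G (hO : S_OPB) {h : Λ → Λ → ℝ} (hh : ∀ x y, h x y = h y x) (V : Λ → ℝ) {z : ℂ}
    (hz : 0 < z.im) : hs (G h V z) ≤ Fintype.card Λ / z.im ^ 2 := by
  have h1 := hs_mul hO hh V hz (1 : Matrix Λ Λ ℂ)
  rwa [Matrix.mul_one, hs_one] at h1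

theorem hs_smul (c : ℂ) (A : Matrix Λ Λ ℂ) : hs (c • A) = ‖c‖ ^ 2 * hs A := by
  unfold hs
  rw [Finset.mul_sum]
  refine Finset.sum_congr rfl fun x _ => ?_
  rw [Finset.mul_sum]
  refine Finset.sum_congr rfl fun y _ => ?_
  rw [Matrix.smul_apply, smul_eq_mul, norm_mul, mul_pow]

theorem diff (hI : S_INV) {h : Λ → Λ → ℝ} (hh : ∀ x y, h x y = h y x) (V : Λ → ℝ) {z z' : ℂ}
    (hz : 0 < z.im) (hz' : 0 < z'.im) :
    G h V z - G h V z' = (z - z') • (G h V z * G h V z') := by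
  obtain ⟨a1, a2, -⟩ := hI Λ h V z hh hz.ne'
  obtain ⟨b1, b2, -⟩ := hI Λ h V z' hh hz'.ne'
  have h1 : G h V z * ((Hm h V - z' • (1 : Matrix Λ Λ ℂ)) - (Hm h V - z • (1 : Matrix Λ Λ ℂ))) *
      G h V z' = G h V z - G h V z' := by
    rw [Matrix.mul_sub, Matrix.sub_mul, a2, Matrix.one_mul, Matrix.mul_assoc, b1, Matrix.mul_one]
  rw [← h1]
  have h2 : (Hm h V - z' • (1 : Matrix Λ Λ ℂ)) - (Hm h V - z • (1 : Matrix Λ Λ ℂ)) =
      (z - z') • (1 : Matrix Λ Λ ℂ) := by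
    rw [sub_smul]
    abel
  rw [h2, Matrix.mul_smul, Matrix.mul_one, Matrix.smul_mul]

theorem hs_diff (hI : S_INV) (hO : S_OPB) {h : Λ → Λ → ℝ} (hh : ∀ x y, h x y = h y x)
    (V : Λ → ℝ) {E E' η : ℝ} (hη : 0 < η) :
    hs (G h V (pt E η) - G h V (pt E' η)) ≤ |E - E'| ^ 2 * (Fintype.card Λ / η ^ 2 / η ^ 2) := by
  have hp : ∀ e : ℝ, (pt e η).im = η := fun e => by simp [pt]
  have hz : 0 < (pt E η).im := by rw [hp]; exact hη
  have hz' : 0 < (pt E' η).im := by rw [hp]; exact hη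
  rw [diff hI hh V hz hz', hs_smul]
  have h1 : pt E η - pt E' η = ((E - E' : ℝ) : ℂ) := by
    simp [pt]
  rw [h1, Complex.norm_real, Real.norm_eq_abs]
  refine mul_le_mul_of_nonneg_left ?_ (sq_nonneg _)
  have h2 := hs_mul hO hh V hz (G h V (pt E' η))
  have h3 := hs_G hO hh V hz'
  rw [hp] at h2 h3
  exact h2.trans (div_le_div_of_nonneg_right h3 (sq_nonneg _))

theorem abs_hs (X Y : Matrix Λ Λ ℂ) {a b : ℝ} (ha : 0 ≤ a) (hb : 0 ≤ b) (hX : hs X ≤ a ^ 2)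
    (hY : hs Y ≤ a ^ 2) (hXY : hs (X - Y) ≤ b ^ 2) : |hs X - hs Y| ≤ 2 * (a * b) := by
  have h1 : |hs X - hs Y| ≤ ∑ x, ∑ y, ‖(X - Y) x y‖ * ‖X x y‖ +
      ∑ x, ∑ y, ‖(X - Y) x y‖ * ‖Y x y‖ := by
    unfold hs
    rw [← Finset.sum_sub_distrib, ← Finset.sum_add_distrib]
    refine (Finset.abs_sum_le_sum_abs _ _).trans (Finset.sum_le_sum fun x _ => ?_)
    rw [← Finset.sum_sub_distrib, ← Finset.sum_add_distrib]
    refine (Finset.abs_sum_le_sum_abs _ _).trans (Finset.sum_le_sum fun y _ => ?_)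
    rw [← mul_add, Matrix.sub_apply]
    have h2 : ‖X x y‖ ^ 2 - ‖Y x y‖ ^ 2 = (‖X x y‖ - ‖Y x y‖) * (‖X x y‖ + ‖Y x y‖) := by ring
    rw [h2, abs_mul, abs_of_nonneg (add_nonneg (norm_nonneg _) (norm_nonneg _))]
    exact mul_le_mul_of_nonneg_right (abs_norm_sub_norm_le _ _)
      (add_nonneg (norm_nonneg _) (norm_nonneg _))
  have key : ∀ Z : Matrix Λ Λ ℂ, hs Z ≤ a ^ 2 → ∑ x, ∑ y, ‖(X - Y) x y‖ * ‖Z x y‖ ≤ a * b := by
    intro Z hZ
    have h2 := cs (X - Y) Z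
    have h3 : hs (X - Y) * hs Z ≤ (a * b) ^ 2 := by
      calc hs (X - Y) * hs Z ≤ b ^ 2 * a ^ 2 :=
            mul_le_mul hXY hZ (hs_nonneg _) (sq_nonneg _)
        _ = (a * b) ^ 2 := by ring
    exact le_of_sq_le_sq (h2.trans h3) (mul_nonneg ha hb)
  have h4 := key X hX
  have h5 := key Y hY
  linarith
where
  le_of_sq_le_sq {s t : ℝ} (h : s ^ 2 ≤ t ^ 2) (ht : 0 ≤ t) : s ≤ t := by
    by_contra hc
    push Not at hc
    nlinarith

/-- **JOB LIP** -/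
theorem lip : S_LIP := by
  intro hI hO d n _ E E' η hη V
  have hp : ∀ e : ℝ, (pt e η).im = η := fun e => by simp [pt]
  have hh : ∀ x y : Tor d n, hop x y = hop y x := hop_symm
  have hcard : (Fintype.card (Tor d n) : ℝ) = (n : ℝ) ^ d := by
    simp [Tor, ZMod.card]
  set N : ℝ := (n : ℝ) ^ d with hN
  have hN0 : 0 ≤ N := by positivity
  have hX : ∀ e : ℝ, hs (G (Λ := Tor d n) hop V (pt e η) - G hop (fun _ => 0) (pt e η)) ≤
      (2 * √N / η) ^ 2 := by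
    intro e
    have hz : 0 < (pt e η).im := by rw [hp]; exact hη
    have h1 := hs_G hO hh V hz
    have h2 := hs_G hO hh (fun _ => (0 : ℝ)) hz
    rw [hp, hcard] at h1 h2
    have h3 := hs_sub (G (Λ := Tor d n) hop V (pt e η)) (G hop (fun _ => 0) (pt e η))
    have h4 : (2 * √N / η) ^ 2 = 2 * (N / η ^ 2) + 2 * (N / η ^ 2) := by
      rw [div_pow, mul_pow, Real.sq_sqrt hN0]
      ring
    rw [h4]
    linarith
  have hD : hs ((G (Λ := Tor d n) hop V (pt E η) - G hop (fun _ => 0) (pt E η)) -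
      (G hop V (pt E' η) - G hop (fun _ => 0) (pt E' η))) ≤ (2 * |E - E'| * √N / η ^ 2) ^ 2 := by
    have e1 : (G (Λ := Tor d n) hop V (pt E η) - G hop (fun _ => 0) (pt E η)) -
        (G hop V (pt E' η) - G hop (fun _ => 0) (pt E' η)) =
        (G hop V (pt E η) - G hop V (pt E' η)) -
        (G hop (fun _ => 0) (pt E η) - G hop (fun _ => 0) (pt E' η)) := by abel
    rw [e1]
    have h1 := hs_diff hI hO hh V (E := E) (E' := E') hη
    have h2 := hs_diff hI hO hh (fun _ => (0 : ℝ)) (E := E) (E' := E') hη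
    rw [hcard] at h1 h2
    have h3 := hs_sub (G (Λ := Tor d n) hop V (pt E η) - G hop V (pt E' η))
      (G hop (fun _ => 0) (pt E η) - G hop (fun _ => 0) (pt E' η))
    have h4 : (2 * |E - E'| * √N / η ^ 2) ^ 2 = 2 * (|E - E'| ^ 2 * (N / η ^ 2 / η ^ 2)) +
        2 * (|E - E'| ^ 2 * (N / η ^ 2 / η ^ 2)) := by
      rw [div_pow, mul_pow, mul_pow, Real.sq_sqrt hN0]
      ring
    rw [h4]
    linarith
  have hfin := abs_hs _ _ (by positivity) (by positivity) (hX E) (hX E') hD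
  have h5 : 2 * (2 * √N / η * (2 * |E - E'| * √N / η ^ 2)) = 8 * N * |E - E'| / η ^ 3 := by
    have h6 : √N * √N = N := Real.mul_self_sqrt hN0
    have h7 : 2 * (2 * √N / η * (2 * |E - E'| * √N / η ^ 2)) =
        8 * (√N * √N) * |E - E'| / η ^ 3 := by
      field_simp
      ring
    rw [h7, h6]
  rw [h5] at hfin
  exact hfin

end Pool.Agent.Q149.HB
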